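import Pool.Agent.H58R2.QL.Lattice

/-! `exists_adapted`: adapted bases of maximal lattices (helper918's task D). -/

set_option autoImplicit false

namespace Pool.Agent.H58R2.QL

open Module Pool.Agent.H918R2.Quad

theorem expand {K F : Type*} [Field K] [Field F] [Algebra K F] {n : ℕ} {ι : Type*} [Fintype ι]
    (A : Fin n → K) (U : Fin n → ι → K) (z : ι → F) :
    ∑ i, algebraMap K F (A i) * (∑ j, algebraMap K F (U i j) * z j) ^ 2 =
      ∑ j, ∑ j', algebraMap K F (∑ i, A i * U i j * U i j') * z j * z j' := by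
  simp only [sq, Finset.mul_sum, map_sum, Finset.sum_mul]
  rw [Finset.sum_comm]
  refine Finset.sum_congr rfl fun j _ => ?_
  rw [Finset.sum_comm]
  refine Finset.sum_congr rfl fun j' _ => ?_
  refine Finset.sum_congr rfl fun i _ => ?_
  simp only [map_mul]
  ring

theorem split {F : Type*} [CommRing F] {d m : ℕ}
    (G : (Fin d ⊕ Fin m) → (Fin d ⊕ Fin m) → F) (hG : ∀ i j, G i j = G j i)
    (z : (Fin d ⊕ Fin m) → F) :
    ∑ j, ∑ j', G j j' * z j * z j' =
      (∑ i, ∑ j, (if i = j then G (Sum.inl i) (Sum.inl i) else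
          if i < j then 2 * G (Sum.inl i) (Sum.inl j) else 0) * z (Sum.inl i) * z (Sum.inl j)) +
        (∑ i, ∑ j, 2 * G (Sum.inl i) (Sum.inr j) * z (Sum.inl i) * z (Sum.inr j)) +
        ∑ i, ∑ j, (if i = j then G (Sum.inr i) (Sum.inr i) else
          if i < j then 2 * G (Sum.inr i) (Sum.inr j) else 0) * z (Sum.inr i) * z (Sum.inr j) := by
  rw [← tri (fun i j => G (Sum.inl i) (Sum.inl j)) (fun i j => hG _ _) (fun i => z (Sum.inl i)),
    ← tri (fun i j => G (Sum.inr i) (Sum.inr j)) (fun i j => hG _ _) (fun i => z (Sum.inr i))]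
  simp only [Fintype.sum_sum_type, Finset.sum_add_distrib]
  have e : ∑ i : Fin m, ∑ j : Fin d, G (Sum.inr i) (Sum.inl j) * z (Sum.inr i) * z (Sum.inl j) =
      ∑ i : Fin d, ∑ j : Fin m, G (Sum.inl i) (Sum.inr j) * z (Sum.inl i) * z (Sum.inr j) := by
    rw [Finset.sum_comm]
    refine Finset.sum_congr rfl fun i _ => Finset.sum_congr rfl fun j _ => ?_
    rw [hG]; ring
  have e' : ∑ i : Fin d, ∑ j : Fin m, 2 * G (Sum.inl i) (Sum.inr j) * z (Sum.inl i) *
      z (Sum.inr j) = 2 * ∑ i : Fin d, ∑ j : Fin m,
        G (Sum.inl i) (Sum.inr j) * z (Sum.inl i) * z (Sum.inr j) := by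
    rw [Finset.mul_sum]
    refine Finset.sum_congr rfl fun i _ => ?_
    rw [Finset.mul_sum]
    refine Finset.sum_congr rfl fun j _ => ?_
    ring
  rw [e, e']
  ring

theorem exists_adapted {R K : Type} [CommRing R] [IsDomain R] [IsDiscreteValuationRing R]
    [Finite (IsLocalRing.ResidueField R)] [Field K] [CharZero K] [Algebra R K]
    [IsFractionRing R K] (n : ℕ) (a : Fin n → R) (ha : ∀ i, a i ≠ 0) (π : R)
    (hπ : Irreducible π) :
    ∃ (d m : ℕ) (_ : d ≤ 2) (_ : d + m = n) (T : (Fin d ⊕ Fin m) → Fin n → R)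
      (U : Fin n → (Fin d ⊕ Fin m) → K)
      (c₁ : Fin d → Fin d → R) (c₂ : Fin d → Fin m → R) (c₀ : Fin m → Fin m → R),
      (∀ i i', ∑ j, U i j * algebraMap R K (T j i') = if i = i' then 1 else 0) ∧
      (∀ j j', ∑ i, algebraMap R K (T j i) * U i j' = if j = j' then 1 else 0) ∧
      (∀ (F : Type) [Field F] [Algebra K F] (z : (Fin d ⊕ Fin m) → F),
        ∑ i, algebraMap K F (algebraMap R K (a i)) * (∑ j, algebraMap K F (U i j) * z j) ^ 2 =
          algebraMap K F (algebraMap R K π) * (∑ i, ∑ j, algebraMap K F (algebraMap R K (c₁ i j)) *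
              z (Sum.inl i) * z (Sum.inl j)) +
          algebraMap K F (algebraMap R K π) * (∑ i, ∑ j, algebraMap K F (algebraMap R K (c₂ i j)) *
              z (Sum.inl i) * z (Sum.inr j)) +
          ∑ i, ∑ j, algebraMap K F (algebraMap R K (c₀ i j)) * z (Sum.inr i) * z (Sum.inr j)) ∧
      (∀ v : Fin d → R, π ∣ (∑ i, ∑ j, c₁ i j * v i * v j) → ∀ i, π ∣ v i) ∧
      Rad π c₀ := by
  classical
  have hinj : Function.Injective (algebraMap R K) := IsFractionRing.injective R K
  set A : Fin n → K := fun i => algebraMap R K (a i) with hAdef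
  have hA0 : ∀ i, A i ≠ 0 := fun i h => ha i (hinj (by rw [map_zero]; exact h))
  have hπ0 : algebraMap R K π ≠ 0 := fun h => hπ.ne_zero (hinj (by rw [map_zero]; exact h))
  obtain ⟨L, hL, hLmax⟩ := exists_max (R := R) A (fun i => ⟨a i, rfl⟩)
  have : Module.Finite R L := lat_le A hA0 hL
  have : Module.IsTorsionFree R K := inferInstance
  have : Module.Free R L := inferInstance
  -- integral values
  have hq' : ∀ x : L, ∃ r : R, algebraMap R K r = qf A x := fun x => hL.2 x x.2
  choose q hq using hq'
  have hβ' : ∀ x y : L, ∃ r : R, algebraMap R K r = bf A x y := by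
    intro x y
    refine ⟨q (x + y) - q x - q y, ?_⟩
    rw [map_sub, map_sub, hq, hq, hq, Submodule.coe_add, qf_add]
    ring
  choose β hβ using hβ'
  have hq_add : ∀ x y, q (x + y) = q x + q y + β x y := by
    intro x y
    apply hinj
    rw [map_add, map_add, hq, hq, hq, hβ, Submodule.coe_add, qf_add]
  have hq_zero : q 0 = 0 := by
    apply hinj
    rw [hq, Submodule.coe_zero, qf_zero, map_zero]
  have hq_smul : ∀ (r : R) x, q (r • x) = r ^ 2 * q x := by
    intro r x
    apply hinj
    rw [map_mul, map_pow, hq, hq, Submodule.coe_smul, qf_smul]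
  have hβ_comm : ∀ x y, β x y = β y x := by
    intro x y
    apply hinj
    rw [hβ, hβ, bf_comm]
  have hβ_add : ∀ x y z, β x (y + z) = β x y + β x z := by
    intro x y z
    apply hinj
    rw [map_add, hβ, hβ, hβ, Submodule.coe_add, bf_add_right]
  have hβ_zero : ∀ x, β x 0 = 0 := by
    intro x
    apply hinj
    rw [hβ, Submodule.coe_zero, bf_zero_right, map_zero]
  have hβ_smul : ∀ x (r : R) y, β x (r • y) = r * β x y := by
    intro x r y
    apply hinj
    rw [map_mul, hβ, hβ, Submodule.coe_smul, bf_smul_right]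
  have hβ_self : ∀ x, β x x = 2 * q x := by
    intro x
    apply hinj
    rw [map_mul, map_ofNat, hβ, hq, bf_self]
  have hβ_sum : ∀ {ι : Type} (s : Finset ι) x (r : ι → R) (y : ι → L),
      β x (∑ j ∈ s, r j • y j) = ∑ j ∈ s, r j * β x (y j) := by
    intro ι s x r y
    induction s using Finset.induction_on with
    | empty => simp [hβ_zero]
    | insert j s hj ih => rw [Finset.sum_insert hj, Finset.sum_insert hj, hβ_add, hβ_smul, ih]
  -- the submodule
  let N : Submodule R L :=
    { carrier := {x | (∀ y, π ∣ β y x) ∧ π ∣ q x}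
      add_mem' := by
        rintro x y ⟨hx1, hx2⟩ ⟨hy1, hy2⟩
        refine ⟨fun z => ?_, ?_⟩
        · rw [hβ_add]; exact dvd_add (hx1 z) (hy1 z)
        · rw [hq_add]; exact dvd_add (dvd_add hx2 hy2) (hy1 x)
      zero_mem' := by
        refine ⟨fun z => ?_, ?_⟩
        · rw [hβ_zero]; exact dvd_zero _
        · rw [hq_zero]; exact dvd_zero _
      smul_mem' := by
        rintro r x ⟨hx1, hx2⟩
        refine ⟨fun z => ?_, ?_⟩
        · rw [hβ_smul]; exact Dvd.dvd.mul_left (hx1 z) _
        · rw [hq_smul]; exact Dvd.dvd.mul_left hx2 _ }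
  have hN : ∀ x, x ∈ N ↔ (∀ y, π ∣ β y x) ∧ π ∣ q x := fun x => Iff.rfl
  obtain ⟨d, m, b, hb1, hb2⟩ := exists_adapted_basis π hπ N
  -- maximality
  have hM : ∀ x : L, (∀ y, π ∣ β y x) → π ^ 2 ∣ q x → ∀ j, π ∣ b.repr x j := by
    intro x hx1 hx2 j
    have hmem : (algebraMap R K π)⁻¹ • (x : Fin n → K) ∈ L := by
      refine hLmax _ (fun y hy => ?_) ?_
      · obtain ⟨s, hs⟩ := hx1 ⟨y, hy⟩
        refine ⟨s, ?_⟩
        rw [bf_comm, bf_smul_right (R := K), Algebra.algebraMap_self_apply, ← hβ ⟨y, hy⟩ x, hs, map_mul]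
        field_simp
      · obtain ⟨s, hs⟩ := hx2
        refine ⟨s, ?_⟩
        rw [qf_smul (R := K), Algebra.algebraMap_self_apply, ← hq x, hs, map_mul, map_pow]
        field_simp
    have hx : x = π • (⟨_, hmem⟩ : L) := by
      ext i
      change (x : Fin n → K) i = π • ((algebraMap R K π)⁻¹ * (x : Fin n → K) i)
      rw [Algebra.smul_def, mul_inv_cancel_left₀ hπ0]
    rw [hx, map_smul, Finsupp.smul_apply, smul_eq_mul]
    exact dvd_mul_right _ _
  -- the matrices
  let E : Fin n → L := fun i => ⟨Pi.single i 1, hL.1 i⟩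
  let T : (Fin d ⊕ Fin m) → Fin n → R := fun j i => b.repr (E i) j
  let U : Fin n → (Fin d ⊕ Fin m) → K := fun i j => (b j : Fin n → K) i
  have hUT : ∀ i i', ∑ j, U i j * algebraMap R K (T j i') = if i = i' then 1 else 0 := by
    intro i i'
    have h := congrArg (fun x : L => (x : Fin n → K) i) (b.sum_repr (E i'))
    simp only [Submodule.coe_sum, Submodule.coe_smul, Finset.sum_apply, Pi.smul_apply] at h
    have h2 : (E i' : Fin n → K) i = if i = i' then 1 else 0 := by
      simp [E, Pi.single_apply]
    rw [← h2, ← h]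
    refine Finset.sum_congr rfl fun j _ => ?_
    rw [Algebra.smul_def, mul_comm]
  have hTU : ∀ j j', ∑ i, algebraMap R K (T j i) * U i j' = if j = j' then 1 else 0 := by
    intro j j'
    obtain ⟨s, hs⟩ := IsLocalization.exist_integer_multiples_of_finite (nonZeroDivisors R)
      (fun i => U i j')
    choose w hw using hs
    have hs0 : algebraMap R K s ≠ 0 := fun h =>
      nonZeroDivisors.coe_ne_zero s (hinj (by rw [map_zero]; exact h))
    have h1 : (s : R) • b j' = ∑ i, w i • E i := by
      ext i
      have h3 := hw i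
      simp only [Submodule.coe_sum, Submodule.coe_smul, Finset.sum_apply, Pi.smul_apply]
      rw [Finset.sum_eq_single i]
      · change (s : R) • U i j' = w i • (Pi.single i (1 : K) : Fin n → K) i
        rw [Pi.single_eq_same, Algebra.smul_def (w i), mul_one]
        exact h3.symm
      · intro k _ hk
        change w k • (Pi.single k (1 : K) : Fin n → K) i = 0
        rw [Pi.single_eq_of_ne hk.symm, smul_zero]
      · intro h; exact absurd (Finset.mem_univ i) h
    have h2 := congrArg (fun x : L => b.repr x j) h1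
    simp only [map_smul, map_sum, Finsupp.smul_apply, Finsupp.coe_finsetSum, Finset.sum_apply,
      Basis.repr_self, smul_eq_mul, Finsupp.single_apply] at h2
    have h4 := congrArg (algebraMap R K) h2
    rw [map_mul, map_sum] at h4
    apply mul_left_cancel₀ hs0
    rw [Finset.mul_sum]
    have h5 : algebraMap R K (if j' = j then 1 else 0) = if j = j' then 1 else 0 := by
      by_cases h : j = j'
      · subst h; simp
      · rw [if_neg (Ne.symm h), if_neg h, map_zero]
    rw [h5] at h4
    rw [h4]
    refine Finset.sum_congr rfl fun i _ => ?_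
    rw [map_mul]
    have h3 : algebraMap R K (w i) = algebraMap R K s * U i j' := by
      rw [← Algebra.smul_def]; exact hw i
    rw [h3]
    ring
  have hcard : d + m = n := by
    let UM : Matrix (Fin n) (Fin d ⊕ Fin m) K := Matrix.of U
    let TM : Matrix (Fin d ⊕ Fin m) (Fin n) K := Matrix.of fun j i => algebraMap R K (T j i)
    have h1 : UM * TM = 1 := by
      ext i i'
      rw [Matrix.mul_apply, Matrix.one_apply]
      exact hUT i i'
    have h2 : TM * UM = 1 := by
      ext j j'
      rw [Matrix.mul_apply, Matrix.one_apply]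
      exact hTU j j'
    have h3 := Matrix.trace_mul_comm UM TM
    rw [h1, h2, Matrix.trace_one, Matrix.trace_one] at h3
    have h4 : n = d + m := by
      have := Nat.cast_injective (R := K) h3
      simpa using this
    exact h4.symm
  -- the coefficients
  have hG1 : ∀ j, ∑ i, A i * U i j * U i j = algebraMap R K (q (b j)) := by
    intro j
    rw [hq, qf]
    refine Finset.sum_congr rfl fun i _ => ?_
    simp only [U]
    ring
  have hG2 : ∀ j j', 2 * ∑ i, A i * U i j * U i j' = algebraMap R K (β (b j) (b j')) := by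
    intro j j'
    rw [hβ, bf, Finset.mul_sum]
    refine Finset.sum_congr rfl fun i _ => ?_
    simp only [U]
    ring
  have hc₁ : ∀ i j : Fin d, ∃ c : R, π * c = if i = j then q (b (Sum.inl i)) else
      if i < j then β (b (Sum.inl i)) (b (Sum.inl j)) else 0 := by
    intro i j
    have : π ∣ if i = j then q (b (Sum.inl i)) else
      if i < j then β (b (Sum.inl i)) (b (Sum.inl j)) else 0 := by
      split_ifs
      · exact ((hN _).1 (hb1 i)).2
      · exact ((hN _).1 (hb1 j)).1 _
      · exact dvd_zero _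
    obtain ⟨c, hc⟩ := this
    exact ⟨c, hc.symm⟩
  choose c₁ hc₁ using hc₁
  have hc₂ : ∀ (i : Fin d) (j : Fin m), ∃ c : R, π * c = β (b (Sum.inl i)) (b (Sum.inr j)) := by
    intro i j
    have : π ∣ β (b (Sum.inl i)) (b (Sum.inr j)) := by
      rw [hβ_comm]; exact ((hN _).1 (hb1 i)).1 _
    obtain ⟨c, hc⟩ := this
    exact ⟨c, hc.symm⟩
  choose c₂ hc₂ using hc₂
  let c₀ : Fin m → Fin m → R := fun i j => if i = j then q (b (Sum.inr i)) else
      if i < j then β (b (Sum.inr i)) (b (Sum.inr j)) else 0
  have hid : ∀ (F : Type) [Field F] [Algebra K F] (z : (Fin d ⊕ Fin m) → F),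
        ∑ i, algebraMap K F (algebraMap R K (a i)) * (∑ j, algebraMap K F (U i j) * z j) ^ 2 =
          algebraMap K F (algebraMap R K π) * (∑ i, ∑ j, algebraMap K F (algebraMap R K (c₁ i j)) *
              z (Sum.inl i) * z (Sum.inl j)) +
          algebraMap K F (algebraMap R K π) * (∑ i, ∑ j, algebraMap K F (algebraMap R K (c₂ i j)) *
              z (Sum.inl i) * z (Sum.inr j)) +
          ∑ i, ∑ j, algebraMap K F (algebraMap R K (c₀ i j)) * z (Sum.inr i) * z (Sum.inr j) := by
    intro F _ _ z
    have h1 := expand A U z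
    rw [split (fun j j' => algebraMap K F (∑ i, A i * U i j * U i j')) (by
      intro j j'
      refine congrArg _ (Finset.sum_congr rfl fun i _ => ?_)
      ring)] at h1
    refine h1.trans ?_
    have h2K : (2 : F) = algebraMap K F 2 := (map_ofNat _ 2).symm
    congr 1
    · congr 1
      · rw [Finset.mul_sum]
        refine Finset.sum_congr rfl fun i _ => ?_
        rw [Finset.mul_sum]
        refine Finset.sum_congr rfl fun j _ => ?_
        rw [← mul_assoc, ← mul_assoc, ← map_mul, ← map_mul, hc₁]
        congr 2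
        split_ifs with h h'
        · rw [hG1]
        · rw [h2K, ← map_mul, hG2]
        · simp
      · rw [Finset.mul_sum]
        refine Finset.sum_congr rfl fun i _ => ?_
        rw [Finset.mul_sum]
        refine Finset.sum_congr rfl fun j _ => ?_
        rw [← mul_assoc, ← mul_assoc, ← map_mul, ← map_mul, hc₂, h2K, ← map_mul, hG2]
    · refine Finset.sum_congr rfl fun i _ => ?_
      refine Finset.sum_congr rfl fun j _ => ?_
      congr 2
      simp only [c₀]
      split_ifs with h h'
      · rw [hG1]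
      · rw [h2K, ← map_mul, hG2]
      · simp
  -- values
  have hval : ∀ v : (Fin d ⊕ Fin m) → R, q (∑ j, v j • b j) =
      π * (∑ i, ∑ j, c₁ i j * v (Sum.inl i) * v (Sum.inl j)) +
        π * (∑ i, ∑ j, c₂ i j * v (Sum.inl i) * v (Sum.inr j)) +
        ∑ i, ∑ j, c₀ i j * v (Sum.inr i) * v (Sum.inr j) := by
    intro v
    apply hinj
    have h := hid K (fun j => algebraMap R K (v j))
    simp only [Algebra.algebraMap_self, RingHom.id_apply] at h
    rw [hq]
    simp only [map_add, map_mul, map_sum]
    rw [← h, qf]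
    refine Finset.sum_congr rfl fun i _ => ?_
    congr 2
    simp only [Submodule.coe_sum, Submodule.coe_smul, Finset.sum_apply, Pi.smul_apply]
    refine Finset.sum_congr rfl fun j _ => ?_
    rw [Algebra.smul_def, mul_comm]
  have hrepr : ∀ (v : (Fin d ⊕ Fin m) → R) j, b.repr (∑ j, v j • b j) j = v j := by
    intro v j
    rw [Basis.repr_sum_self]
  -- anisotropy
  have han : ∀ v : Fin d → R, π ∣ (∑ i, ∑ j, c₁ i j * v i * v j) → ∀ i, π ∣ v i := by
    intro v hv i
    let w : (Fin d ⊕ Fin m) → R := Sum.elim v 0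
    have hmem : (∑ j, w j • b j) ∈ N := by
      refine N.sum_mem fun j _ => ?_
      rcases j with j | j
      · exact N.smul_mem _ (hb1 j)
      · simp [w]
    have hqv : q (∑ j, w j • b j) = π * (∑ i, ∑ j, c₁ i j * v i * v j) := by
      rw [hval]; simp [w]
    have h := hM _ ((hN _).1 hmem).1 (by rw [hqv, sq]; exact mul_dvd_mul_left _ hv) (Sum.inl i)
    rw [hrepr] at h
    exact h
  -- the radical
  have hradR : ∀ u : Fin m → R, π ∣ (∑ i, ∑ j, c₀ i j * u i * u j) →
      (∀ j, π ∣ ∑ i, (c₀ i j + c₀ j i) * u i) → ∀ i, π ∣ u i := by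
    intro u hu1 hu2 i
    let w : (Fin d ⊕ Fin m) → R := Sum.elim 0 u
    have hsym : ∀ i j, c₀ i j + c₀ j i = β (b (Sum.inr j)) (b (Sum.inr i)) := by
      intro i j
      rcases lt_trichotomy i j with h | h | h
      · simp only [c₀, if_neg h.ne, if_pos h, if_neg h.ne', if_neg (not_lt.2 h.le), add_zero]
        rw [hβ_comm]
      · subst h
        simp only [c₀, if_true]
        rw [hβ_self]; ring
      · simp only [c₀, if_neg h.ne, if_pos h, if_neg h.ne', if_neg (not_lt.2 h.le), zero_add]
    have hmem : (∑ j, w j • b j) ∈ N := by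
      rw [hN]
      refine ⟨?_, ?_⟩
      · have hbj : ∀ j, π ∣ β (∑ j, w j • b j) (b j) := by
          intro j
          rcases j with j | j
          · exact ((hN _).1 (hb1 j)).1 _
          · rw [hβ_comm, hβ_sum]
            have := hu2 j
            simp only [hsym] at this
            rw [Fintype.sum_sum_type]
            simp only [w, Sum.elim_inl, Sum.elim_inr, Pi.zero_apply, zero_mul,
              Finset.sum_const_zero, zero_add]
            refine this.trans (dvd_of_eq (Finset.sum_congr rfl fun i _ => ?_))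
            ring
        intro y
        rw [hβ_comm, ← b.sum_repr y, hβ_sum]
        exact Finset.dvd_sum fun j _ => Dvd.dvd.mul_left (hbj j) _
      · rw [hval]
        simpa [w] using hu1
    have h := hb2 _ hmem i
    rw [hrepr] at h
    exact h
  have hd : d ≤ 2 := by
    by_contra hlt
    obtain ⟨u, hu0, hu⟩ := exists_zero (by omega : 3 ≤ d)
      (fun i j => IsLocalRing.residue R (c₁ i j))
    choose w hw using fun i => IsLocalRing.residue_surjective (R := R) (u i)
    obtain rfl : (fun i => IsLocalRing.residue R (w i)) = u := funext hw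
    have hres : ∀ x : R, IsLocalRing.residue R x = 0 ↔ π ∣ x := by
      intro x
      rw [IsLocalRing.residue_eq_zero_iff, hπ.maximalIdeal_eq, Ideal.mem_span_singleton]
    refine hu0 (funext fun i => ?_)
    change IsLocalRing.residue R (w i) = 0
    rw [hres]
    refine han w ?_ i
    rw [← hres]
    simpa using hu
  exact ⟨d, m, hd, hcard, T, U, c₁, c₂, c₀, hUT, hTU, hid, han, rad_of π hπ c₀ hradR⟩

end Pool.Agent.H58R2.QL
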