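import Mathlib

/-! Field-theoretic lemmas on quadratic forms for `exists_adapted` (helper918's task D). -/

set_option autoImplicit false

namespace Pool.Agent.H58R2.QL

open Finset

/-- Splitting a symmetric double sum into diagonal and upper triangular part. -/
theorem tri {F : Type*} [CommRing F] {d : ℕ} (M : Fin d → Fin d → F)
    (hM : ∀ i j, M i j = M j i) (z : Fin d → F) :
    ∑ i, ∑ j, M i j * z i * z j =
      ∑ i, ∑ j, (if i = j then M i i else if i < j then 2 * M i j else 0) * z i * z j := by
  have key : ∑ i, ∑ j, (if i < j then M i j else 0) * z i * z j =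
      ∑ i, ∑ j, (if j < i then M i j else 0) * z i * z j := by
    rw [Finset.sum_comm]
    refine Finset.sum_congr rfl fun i _ => Finset.sum_congr rfl fun j _ => ?_
    rw [hM i j]
    split_ifs <;> ring
  have e1 : ∀ i j : Fin d, M i j * z i * z j = (if i = j then M i i else 0) * z i * z j +
      ((if i < j then M i j else 0) * z i * z j + (if j < i then M i j else 0) * z i * z j) := by
    intro i j
    rcases lt_trichotomy i j with h | h | h
    · simp [h.ne, h, h.le]
    · subst h; simp
    · simp [h.ne', h, h.le]
  have e2 : ∀ i j : Fin d, (if i = j then M i i else if i < j then 2 * M i j else 0) * z i * z j =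
      (if i = j then M i i else 0) * z i * z j +
      ((if i < j then M i j else 0) * z i * z j + (if i < j then M i j else 0) * z i * z j) := by
    intro i j
    rcases lt_trichotomy i j with h | h | h
    · simp [h.ne, h]; ring
    · subst h; simp
    · simp [h.ne', not_lt.2 h.le]
  simp only [e1, e2, Finset.sum_add_distrib]
  rw [key]

/-- Chevalley-Warning for one quadratic form in at least three variables. -/
theorem exists_zero {k : Type*} [Field k] [Finite k] {d : ℕ} (hd : 3 ≤ d)
    (c : Fin d → Fin d → k) :
    ∃ u : Fin d → k, u ≠ 0 ∧ ∑ i, ∑ j, c i j * u i * u j = 0 := by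
  classical
  letI := Fintype.ofFinite k
  obtain ⟨p, hp⟩ := CharP.exists k
  have hprime : p.Prime := (CharP.char_is_prime_or_zero k p).resolve_right
    (CharP.char_ne_zero_of_finite k p)
  set f : MvPolynomial (Fin d) k := ∑ i, ∑ j, MvPolynomial.C (c i j) * MvPolynomial.X i *
    MvPolynomial.X j with hf
  have hev : ∀ u : Fin d → k, MvPolynomial.eval u f = ∑ i, ∑ j, c i j * u i * u j := by
    intro u; simp [hf]
  have hdeg : f.totalDegree < Fintype.card (Fin d) := by
    rw [Fintype.card_fin]
    refine lt_of_le_of_lt ?_ (lt_of_lt_of_le (by norm_num : 2 < 3) hd)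
    refine (MvPolynomial.totalDegree_finsetSum _ _).trans (Finset.sup_le fun i _ => ?_)
    refine (MvPolynomial.totalDegree_finsetSum _ _).trans (Finset.sup_le fun j _ => ?_)
    refine (MvPolynomial.totalDegree_mul _ _).trans ?_
    refine (add_le_add (MvPolynomial.totalDegree_mul _ _) le_rfl).trans ?_
    rw [MvPolynomial.totalDegree_C, MvPolynomial.totalDegree_X, MvPolynomial.totalDegree_X]
  have hdvd := char_dvd_card_solutions p hdeg
  have h0 : MvPolynomial.eval (0 : Fin d → k) f = 0 := by rw [hev]; simp
  have hcard : 1 < Fintype.card {x : Fin d → k // MvPolynomial.eval x f = 0} := by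
    have hpos : 0 < Fintype.card {x : Fin d → k // MvPolynomial.eval x f = 0} :=
      Fintype.card_pos_iff.2 ⟨⟨0, h0⟩⟩
    exact lt_of_lt_of_le hprime.one_lt (Nat.le_of_dvd hpos hdvd)
  obtain ⟨⟨u, hu⟩, hne⟩ := Fintype.exists_ne_of_one_lt_card hcard ⟨0, h0⟩
  refine ⟨u, fun h => hne (by simp [h]), ?_⟩
  rw [← hev]; exact hu

/-- If a quadratic form over a finite field has trivial radical, then so does its base change. -/
theorem rad_field {k κ : Type*} [Field k] [Finite k] [Field κ] [Algebra k κ] {m : ℕ}
    (c : Fin m → Fin m → k)
    (hK : ∀ u : Fin m → k, ∑ i, ∑ j, c i j * u i * u j = 0 →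
      (∀ j, ∑ i, (c i j + c j i) * u i = 0) → ∀ i, u i = 0)
    (v : Fin m → κ) (h1 : ∑ i, ∑ j, algebraMap k κ (c i j) * v i * v j = 0)
    (h2 : ∀ j, ∑ i, algebraMap k κ (c i j + c j i) * v i = 0) : ∀ i, v i = 0 := by
  classical
  set b := Module.Basis.ofVectorSpace k κ with hb
  -- coordinates of v
  set u : _ → Fin m → k := fun β i => b.repr (v i) β with hu
  have hB : ∀ β j, ∑ i, (c i j + c j i) * u β i = 0 := by
    intro β j
    have := congrArg (fun x => b.repr x β) (h2 j)
    simp only [map_sum, map_zero, Finsupp.coe_finsetSum, Finset.sum_apply,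
      Finsupp.coe_zero, Pi.zero_apply] at this
    rw [← this]
    refine Finset.sum_congr rfl fun i _ => ?_
    rw [← Algebra.smul_def, map_smul, Finsupp.smul_apply, smul_eq_mul]
  -- double of the value
  have h2Q : ∀ β, 2 * ∑ i, ∑ j, c i j * u β i * u β j = 0 := by
    intro β
    have e : 2 * ∑ i, ∑ j, c i j * u β i * u β j =
        ∑ j, u β j * ∑ i, (c i j + c j i) * u β i := by
      have e1 : ∑ j, u β j * ∑ i, (c i j + c j i) * u β i =
          ∑ j, ∑ i, c i j * u β i * u β j + ∑ j, ∑ i, c j i * u β j * u β i := by
        rw [← Finset.sum_add_distrib]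
        refine Finset.sum_congr rfl fun j _ => ?_
        rw [Finset.mul_sum, ← Finset.sum_add_distrib]
        refine Finset.sum_congr rfl fun i _ => ?_
        ring
      rw [e1, Finset.sum_comm, two_mul]
    rw [e]
    exact Finset.sum_eq_zero fun j _ => by rw [hB β j, mul_zero]
  suffices hall : ∀ β i, u β i = 0 by
    intro i
    have : b.repr (v i) = 0 := by ext β; exact hall β i
    simpa using this
  by_cases h2k : (2 : k) = 0
  · -- characteristic two
    haveI : CharP k 2 := by
      have h := CharTwo.of_one_ne_zero_of_two_eq_zero (one_ne_zero' k) h2k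
      exact h
    haveI : Fact (Nat.Prime 2) := ⟨Nat.prime_two⟩
    have hsq : ∀ x : k, ∃ y : k, y ^ 2 = x := by
      intro x
      have hbij : Function.Bijective (frobenius k 2) :=
        Finite.injective_iff_bijective.1 (frobenius_inj k 2)
      obtain ⟨y, hy⟩ := hbij.2 x
      exact ⟨y, by simpa [frobenius_def] using hy⟩
    choose σ hσ using fun β => hsq (∑ i, ∑ j, c i j * u β i * u β j)
    haveI : CharP κ 2 := charP_of_injective_algebraMap (algebraMap k κ).injective 2
    -- support
    set s : Finset _ := Finset.univ.biUnion fun i : Fin m => (b.repr (v i)).support with hs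
    have hv : ∀ i, v i = ∑ β ∈ s, u β i • b β := by
      intro i
      conv_lhs => rw [← b.linearCombination_repr (v i)]
      rw [Finsupp.linearCombination_apply, Finsupp.sum]
      refine Finset.sum_subset (Finset.subset_biUnion_of_mem
        (fun i : Fin m => (b.repr (v i)).support) (Finset.mem_univ i)) ?_
      intro β _ hβ
      rw [Finsupp.notMem_support_iff.1 hβ, zero_smul]
    -- the polar form of two coordinate vectors vanishes
    have hpol : ∀ β γ, ∑ i, ∑ j, (c i j + c j i) * u β i * u γ j = 0 := by
      intro β γ
      rw [Finset.sum_comm]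
      refine Finset.sum_eq_zero fun j _ => ?_
      rw [← Finset.sum_mul, hB β j, zero_mul]
    have hA : ∀ x : k, ∀ y : κ, algebraMap k κ x * y = x • y := fun x y =>
      (Algebra.smul_def x y).symm
    have hmain : ∑ i, ∑ j, algebraMap k κ (c i j) * v i * v j =
        (∑ β ∈ s, σ β • b β) ^ 2 := by
      -- additive expansion
      have gen : ∀ t : Finset _, ∑ i, ∑ j, algebraMap k κ (c i j) * (∑ β ∈ t, u β i • b β) *
          (∑ β ∈ t, u β j • b β) = (∑ β ∈ t, σ β • b β) ^ 2 := by
        intro t
        induction t using Finset.induction_on with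
        | empty => simp
        | insert β t hβ ih =>
          simp only [Finset.sum_insert hβ]
          rw [CharTwo.add_sq, ← ih]
          have hterm : (σ β • b β) ^ 2 =
              ∑ i, ∑ j, algebraMap k κ (c i j) * (u β i • b β) * (u β j • b β) := by
            rw [smul_pow, hσ β, Algebra.smul_def, map_sum, Finset.sum_mul]
            refine Finset.sum_congr rfl fun i _ => ?_
            rw [map_sum, Finset.sum_mul]
            refine Finset.sum_congr rfl fun j _ => ?_
            rw [Algebra.smul_def, Algebra.smul_def, map_mul, map_mul]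
            ring
          have hcross : ∑ i, ∑ j, (algebraMap k κ (c i j) * (u β i • b β) *
                (∑ γ ∈ t, u γ j • b γ) +
              algebraMap k κ (c i j) * (∑ γ ∈ t, u γ i • b γ) * (u β j • b β)) = 0 := by
            have e : ∑ i, ∑ j, (algebraMap k κ (c i j) * (u β i • b β) *
                (∑ γ ∈ t, u γ j • b γ) +
              algebraMap k κ (c i j) * (∑ γ ∈ t, u γ i • b γ) * (u β j • b β)) =
              ∑ γ ∈ t, algebraMap k κ (∑ i, ∑ j, (c i j + c j i) * u β i * u γ j) *
                b β * b γ := by
              have e3 : ∑ i, ∑ j, algebraMap k κ (c i j) * (∑ γ ∈ t, u γ i • b γ) *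
                  (u β j • b β) = ∑ i, ∑ j, algebraMap k κ (c j i) * (∑ γ ∈ t, u γ j • b γ) *
                  (u β i • b β) := by rw [Finset.sum_comm]
              simp only [Finset.sum_add_distrib]
              rw [e3]
              simp only [map_sum, Finset.sum_mul, Finset.mul_sum, ← Finset.sum_add_distrib]
              rw [Finset.sum_comm' (s := t) (t := fun _ => Finset.univ)
                (t' := Finset.univ) (s' := fun _ => t) (by simp)]
              refine Finset.sum_congr rfl fun i _ => ?_
              rw [Finset.sum_comm' (s := t) (t := fun _ => Finset.univ)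
                (t' := Finset.univ) (s' := fun _ => t) (by simp)]
              refine Finset.sum_congr rfl fun j _ => ?_
              refine Finset.sum_congr rfl fun γ _ => ?_
              simp only [Algebra.smul_def, map_mul, map_add]
              ring
            rw [e]
            refine Finset.sum_eq_zero fun γ _ => ?_
            rw [hpol, map_zero, zero_mul, zero_mul]
          rw [hterm]
          rw [← add_zero (_ + _), ← hcross]
          simp only [← Finset.sum_add_distrib]
          refine Finset.sum_congr rfl fun i _ => Finset.sum_congr rfl fun j _ => ?_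
          ring
      simp only [hv]
      exact gen s
    have hzero : ∑ β ∈ s, σ β • b β = 0 := by
      rw [h1] at hmain
      exact (pow_eq_zero_iff two_ne_zero).1 hmain.symm
    have hσ0 : ∀ β ∈ s, σ β = 0 := linearIndependent_iff'.1 b.linearIndependent s σ hzero
    intro β i
    by_cases hβ : β ∈ s
    · refine hK (u β) ?_ (hB β) i
      rw [← hσ β, hσ0 β hβ]; simp
    · by_contra hne
      refine hβ ?_
      rw [hs, Finset.mem_biUnion]
      exact ⟨i, Finset.mem_univ i, Finsupp.mem_support_iff.2 hne⟩
  · intro β i
    refine hK (u β) ?_ (hB β) i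
    have := h2Q β
    rcases mul_eq_zero.1 this with h | h
    · exact absurd h h2k
    · exact h

end Pool.Agent.H58R2.QL
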