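import Pool.Agent.H58R2.QL.RadOf

/-! Maximal lattices of a diagonal quadratic form (helper918's task D, steps 1, 2). -/

set_option autoImplicit false

namespace Pool.Agent.H58R2.QL

open Module

section forms

variable {K : Type*} [Field K] {n : ℕ}

/-- The diagonal quadratic form. -/
def qf (A : Fin n → K) (x : Fin n → K) : K := ∑ i, A i * x i ^ 2

/-- Its polar form. -/
def bf (A : Fin n → K) (x y : Fin n → K) : K := ∑ i, 2 * A i * x i * y i

theorem qf_add (A x y : Fin n → K) : qf A (x + y) = qf A x + qf A y + bf A x y := by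
  simp only [qf, bf, Pi.add_apply, ← Finset.sum_add_distrib]
  refine Finset.sum_congr rfl fun i _ => ?_
  ring

theorem qf_zero (A : Fin n → K) : qf A 0 = 0 := by simp [qf]

theorem bf_comm (A x y : Fin n → K) : bf A x y = bf A y x := by
  simp only [bf]
  refine Finset.sum_congr rfl fun i _ => ?_
  ring

theorem bf_add_right (A x y z : Fin n → K) : bf A x (y + z) = bf A x y + bf A x z := by
  simp only [bf, Pi.add_apply, ← Finset.sum_add_distrib]
  refine Finset.sum_congr rfl fun i _ => ?_
  ring

theorem bf_zero_right (A x : Fin n → K) : bf A x 0 = 0 := by simp [bf]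

theorem bf_self (A x : Fin n → K) : bf A x x = 2 * qf A x := by
  simp only [bf, qf, Finset.mul_sum]
  refine Finset.sum_congr rfl fun i _ => ?_
  ring

variable {R : Type*} [CommRing R] [Algebra R K]

theorem qf_smul (A x : Fin n → K) (r : R) : qf A (r • x) = algebraMap R K r ^ 2 * qf A x := by
  simp only [qf, Pi.smul_apply, Finset.mul_sum, Algebra.smul_def]
  refine Finset.sum_congr rfl fun i _ => ?_
  ring

theorem bf_smul_right (A x y : Fin n → K) (r : R) :
    bf A x (r • y) = algebraMap R K r * bf A x y := by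
  simp only [bf, Pi.smul_apply, Finset.mul_sum, Algebra.smul_def]
  refine Finset.sum_congr rfl fun i _ => ?_
  ring

end forms

/-- Integral overlattices of the standard lattice. -/
def Lat (R : Type*) {K : Type*} [CommRing R] [Field K] [Algebra R K] {n : ℕ} (A : Fin n → K) :
    Set (Submodule R (Fin n → K)) :=
  {L | (∀ i, Pi.single i 1 ∈ L) ∧ ∀ x ∈ L, qf A x ∈ (algebraMap R K).range}

theorem lat_le {R K : Type*} [CommRing R] [Field K] [CharZero K] [Algebra R K] {n : ℕ}
    (A : Fin n → K) (hA0 : ∀ i, A i ≠ 0) {L : Submodule R (Fin n → K)} (hL : L ∈ Lat R A)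
    [IsNoetherianRing R] : Module.Finite R L := by
  classical
  let φ : (Fin n → R) →ₗ[R] (Fin n → K) :=
    { toFun := fun w i => (2 * A i)⁻¹ * algebraMap R K (w i)
      map_add' := fun w w' => by ext i; simp [mul_add]
      map_smul' := fun r w => by ext i; simp [Algebra.smul_def]; ring }
  have hle : L ≤ LinearMap.range φ := by
    intro x hx
    have hx1 : ∀ i, ∃ w : R, algebraMap R K w = 2 * A i * x i := by
      intro i
      have h1 := hL.2 _ (L.add_mem hx (hL.1 i))
      have h2 := hL.2 _ hx
      have h3 := hL.2 _ (hL.1 i)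
      rw [qf_add] at h1
      have h4 : bf A x (Pi.single i 1) ∈ (algebraMap R K).range := by
        have := sub_mem (sub_mem h1 h2) h3
        ring_nf at this
        exact this
      have h5 : bf A x (Pi.single i 1) = 2 * A i * x i := by
        rw [bf, Finset.sum_eq_single i]
        · simp
        · intro j _ hj; simp [hj]
        · intro h; exact absurd (Finset.mem_univ i) h
      rw [h5] at h4
      exact h4
    choose w hw using hx1
    refine ⟨w, ?_⟩
    ext i
    change (2 * A i)⁻¹ * algebraMap R K (w i) = x i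
    rw [hw i]
    have := hA0 i
    field_simp
  have : IsNoetherian R (LinearMap.range φ) := isNoetherian_of_surjective φ.rangeRestrict
    (LinearMap.range_eq_top.2 φ.surjective_rangeRestrict)
  have : IsNoetherian R L := isNoetherian_of_le hle
  infer_instance

theorem exists_max {R K : Type*} [CommRing R] [Field K] [Algebra R K] {n : ℕ}
    (A : Fin n → K) (hA : ∀ i, A i ∈ (algebraMap R K).range) :
    ∃ L ∈ Lat R A, ∀ x : Fin n → K, (∀ y ∈ L, bf A x y ∈ (algebraMap R K).range) →
      qf A x ∈ (algebraMap R K).range → x ∈ L := by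
  classical
  -- the standard lattice
  let L₀ : Submodule R (Fin n → K) := Submodule.pi Set.univ fun _ => LinearMap.range (Algebra.linearMap R K)
  have hL₀ : L₀ ∈ Lat R A := by
    refine ⟨fun i => ?_, fun x hx => ?_⟩
    · rw [Submodule.mem_pi]
      intro j _
      by_cases h : j = i
      · subst h; exact ⟨1, by simp⟩
      · exact ⟨0, by simp [h]⟩
    · rw [Submodule.mem_pi] at hx
      refine sum_mem fun i _ => mul_mem (hA i) (pow_mem ?_ 2)
      obtain ⟨r, hr⟩ := hx i (Set.mem_univ i)
      exact ⟨r, by simpa using hr⟩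
  obtain ⟨L, -, hmax⟩ := zorn_le_nonempty₀ (Lat R A) (by
    intro c hc hchain y hy
    refine ⟨sSup c, ⟨fun i => ?_, fun x hx => ?_⟩, fun z hz => le_sSup hz⟩
    · exact (le_sSup hy : y ≤ sSup c) ((hc hy).1 i)
    · rw [Submodule.mem_sSup_of_directed ⟨y, hy⟩ hchain.directedOn] at hx
      obtain ⟨z, hz, hxz⟩ := hx
      exact (hc hz).2 x hxz) L₀ hL₀
  refine ⟨L, hmax.prop, fun x hx hqx => ?_⟩
  have hL' : L ⊔ Submodule.span R {x} ∈ Lat R A := by
    refine ⟨fun i => (le_sup_left : L ≤ _) (hmax.prop.1 i), fun y hy => ?_⟩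
    obtain ⟨u, hu, v, hv, rfl⟩ := Submodule.mem_sup.1 hy
    obtain ⟨r, rfl⟩ := Submodule.mem_span_singleton.1 hv
    rw [qf_add, qf_smul, bf_smul_right, bf_comm]
    exact add_mem (add_mem (hmax.prop.2 u hu) (mul_mem (pow_mem (RingHom.mem_range_self _ r) 2) hqx))
      (mul_mem (RingHom.mem_range_self _ r) (hx u hu))
  exact hmax.le_of_ge hL' le_sup_left
    ((le_sup_right : Submodule.span R {x} ≤ _) (Submodule.mem_span_singleton_self x))

/-- A basis adapted to a submodule. -/
theorem exists_adapted_basis {R M : Type*} [CommRing R] [IsDomain R] [IsDiscreteValuationRing R]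
    [AddCommGroup M] [Module R M] [Module.Finite R M] [Module.Free R M] (π : R)
    (hπ : Irreducible π) (N : Submodule R M) :
    ∃ (d m : ℕ) (b : Basis (Fin d ⊕ Fin m) R M), (∀ i, b (Sum.inl i) ∈ N) ∧
      ∀ x ∈ N, ∀ i, π ∣ b.repr x (Sum.inr i) := by
  classical
  have b₀ := Module.Free.chooseBasis R M
  obtain ⟨r, snf⟩ := N.smithNormalForm b₀
  -- coordinates of elements of `N` outside of `D`
  have key : ∀ i, snf.bM i ∉ N → ∀ x ∈ N, π ∣ snf.bM.repr x i := by
    intro i hi x hx
    by_cases hr : i ∈ Set.range snf.f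
    · obtain ⟨j, rfl⟩ := hr
      have h1 := snf.repr_apply_embedding_eq_repr_smul ⟨x, hx⟩ (i := j)
      rw [map_smul, Finsupp.smul_apply, smul_eq_mul] at h1
      have h2 : snf.bM.repr x (snf.f j) = snf.a j * snf.bN.repr ⟨x, hx⟩ j := h1
      rw [h2]
      refine Dvd.dvd.mul_right ?_ _
      have hnu : ¬ IsUnit (snf.a j) := by
        intro hu
        obtain ⟨u, hu⟩ := hu
        refine hi ?_
        have h3 : snf.bM (snf.f j) = (↑u⁻¹ : R) • (snf.bN j : M) := by
          rw [snf.snf j, ← hu, smul_smul, Units.inv_mul, one_smul]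
        rw [h3]
        exact N.smul_mem _ (snf.bN j).2
      have h4 : snf.a j ∈ IsLocalRing.maximalIdeal R := (IsLocalRing.mem_maximalIdeal _).2 hnu
      rwa [hπ.maximalIdeal_eq, Ideal.mem_span_singleton] at h4
    · rw [snf.repr_eq_zero_of_notMem_range ⟨x, hx⟩ hr]
      exact dvd_zero _
  -- reindexing
  let p : Module.Free.ChooseBasisIndex R M → Prop := fun i => snf.bM i ∈ N
  let e1 : {i // p i} ≃ Fin (Fintype.card {i // p i}) := Fintype.equivFin _
  let e2 : {i // ¬ p i} ≃ Fin (Fintype.card {i // ¬ p i}) := Fintype.equivFin _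
  let e : Module.Free.ChooseBasisIndex R M ≃
      (Fin (Fintype.card {i // p i}) ⊕ Fin (Fintype.card {i // ¬ p i})) :=
    (Equiv.sumCompl p).symm.trans (Equiv.sumCongr e1 e2)
  refine ⟨_, _, snf.bM.reindex e, fun i => ?_, fun x hx i => ?_⟩
  · rw [Basis.reindex_apply]
    have : e.symm (Sum.inl i) = (e1.symm i : Module.Free.ChooseBasisIndex R M) := by
      simp [e]
    rw [this]
    exact (e1.symm i).2
  · rw [Basis.repr_reindex_apply]
    have : e.symm (Sum.inr i) = (e2.symm i : Module.Free.ChooseBasisIndex R M) := by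
      simp [e]
    rw [this]
    exact key _ (e2.symm i).2 x hx

end Pool.Agent.H58R2.QL
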