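import Pool.Agent.H918R2.Quad.Defs
import Pool.Agent.H58R2.QL.Field

/-! From the residue field to every point over `π` (helper918's task D, steps 6, 7). -/

set_option autoImplicit false

namespace Pool.Agent.H58R2.QL

open Pool.Agent.H918R2.Quad

theorem rad_of {R : Type} [CommRing R] [IsDomain R] [IsDiscreteValuationRing R]
    [Finite (IsLocalRing.ResidueField R)] (π : R) (hπ : Irreducible π) {m : ℕ}
    (c₀ : Fin m → Fin m → R)
    (hK : ∀ u : Fin m → R, π ∣ (∑ i, ∑ j, c₀ i j * u i * u j) →
      (∀ j, π ∣ ∑ i, (c₀ i j + c₀ j i) * u i) → ∀ i, π ∣ u i) : Rad π c₀ := by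
  intro C _ f Q _ hfπ v h1 h2
  have hmax : IsLocalRing.maximalIdeal R = Ideal.span {π} := hπ.maximalIdeal_eq
  have hres : ∀ x : R, IsLocalRing.residue R x = 0 ↔ π ∣ x := by
    intro x
    rw [IsLocalRing.residue_eq_zero_iff, hmax, Ideal.mem_span_singleton]
  let κ := FractionRing (C ⧸ Q)
  let h : C →+* κ := (algebraMap (C ⧸ Q) κ).comp (Ideal.Quotient.mk Q)
  have hh : ∀ x : C, h x = 0 ↔ x ∈ Q := by
    intro x
    simp only [h, RingHom.comp_apply]
    rw [map_eq_zero_iff _ (IsFractionRing.injective (C ⧸ Q) κ), Ideal.Quotient.eq_zero_iff_mem]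
  let g : R →+* κ := h.comp f
  have hg : ∀ x ∈ IsLocalRing.maximalIdeal R, g x = 0 := by
    intro x hx
    rw [hmax, Ideal.mem_span_singleton] at hx
    obtain ⟨y, rfl⟩ := hx
    have : h (f π) = 0 := (hh _).2 hfπ
    simp [g, this]
  let ψ : IsLocalRing.ResidueField R →+* κ := Ideal.Quotient.lift (IsLocalRing.maximalIdeal R) g hg
  have hψ : ∀ x : R, ψ (IsLocalRing.residue R x) = g x := fun x => Ideal.Quotient.lift_mk _ _ _
  letI : Algebra (IsLocalRing.ResidueField R) κ := ψ.toAlgebra
  have hal : ∀ x : R, algebraMap (IsLocalRing.ResidueField R) κ (IsLocalRing.residue R x) =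
    h (f x) := fun x => hψ x
  have hfin : ∀ i, h (v i) = 0 := by
    refine rad_field (k := IsLocalRing.ResidueField R) (κ := κ)
      (fun i j => IsLocalRing.residue R (c₀ i j)) ?_ (fun i => h (v i)) ?_ ?_
    · intro u hu1 hu2
      choose w hw using fun i => IsLocalRing.residue_surjective (R := R) (u i)
      obtain rfl : (fun i => IsLocalRing.residue R (w i)) = u := funext hw
      intro i
      rw [hres]
      refine hK w ?_ ?_ i
      · rw [← hres]; simpa using hu1
      · intro j; rw [← hres]; simpa using hu2 j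
    · have := (hh _).2 h1
      simpa [hal] using this
    · intro j
      have := (hh _).2 (h2 j)
      simpa [hal] using this
  intro i
  exact (hh _).1 (hfin i)

end Pool.Agent.H58R2.QL
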